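import Pool.Agent.H19M.Stm2

/-!
# Project H19M (helper19), MP_c4a55f_al, piece LOW (helper79)
-/

set_option autoImplicit false

open Filter Topology Pool.Agent.N709.UM

universe u

namespace Pool.Agent.H19M

namespace LOWP

variable {H : Type u} [Group H]

theorem tp_zero (v : ℕ → H) (n : ℕ) (c : ℕ → ℤ) : tp v n 0 c = 1 := by
  simp [tp]

theorem tp_succ (v : ℕ → H) (n l : ℕ) (c : ℕ → ℤ) :
    tp v n (l + 1) c = tp v n l c * v (n + l) ^ c (n + l) := by
  simp [tp, List.range_succ]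

theorem tp_add (v : ℕ → H) (n l₁ l₂ : ℕ) (c : ℕ → ℤ) :
    tp v n (l₁ + l₂) c = tp v n l₁ c * tp v (n + l₁) l₂ c := by
  induction l₂ with
  | zero => rw [Nat.add_zero, tp_zero, mul_one]
  | succ l₂ ih => rw [← Nat.add_assoc, tp_succ, ih, tp_succ, mul_assoc, Nat.add_assoc]

theorem tp_congr (v : ℕ → H) (n l : ℕ) (c c' : ℕ → ℤ) (h : ∀ i, i < l → c (n + i) = c' (n + i)) :
    tp v n l c = tp v n l c' := by
  induction l with
  | zero => rw [tp_zero, tp_zero]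
  | succ l ih =>
    rw [tp_succ, tp_succ, ih (fun i hi => h i (by omega)), h l (by omega)]

theorem one_mem_pp (v : ℕ → H) (n : ℕ) : (1 : H) ∈ pp v n := by
  induction n with
  | zero => rfl
  | succ n ih => exact ⟨1, ih, 0, by simp, by simp⟩

theorem tp_mem_pp (v : ℕ → H) (n l : ℕ) (c : ℕ → ℤ) (hc : Bd c) : tp v n l c ∈ pp v (n + l) := by
  induction l with
  | zero => rw [tp_zero]; exact one_mem_pp v _
  | succ l ih =>
    rw [tp_succ]
    exact ⟨_, ih, c (n + l), hc _, rfl⟩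

theorem conj_pow {ρ : H → ℝ} {B : H} {t : ℝ}
    (h : ∀ g, ρ (B * g * B⁻¹) ≤ ρ g + t ∧ ρ (B⁻¹ * g * B) ≤ ρ g + t) (n : ℕ) :
    ∀ g, ρ (B ^ n * g * (B ^ n)⁻¹) ≤ ρ g + n * t ∧ ρ ((B ^ n)⁻¹ * g * B ^ n) ≤ ρ g + n * t := by
  induction n with
  | zero => intro g; simp
  | succ n ih =>
    intro g
    constructor
    · have e : B ^ (n + 1) * g * (B ^ (n + 1))⁻¹ = B ^ n * (B * g * B⁻¹) * (B ^ n)⁻¹ := by
        rw [pow_succ]; group
      rw [e]
      have h1 := (ih (B * g * B⁻¹)).1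
      have h2 := (h g).1
      push_cast
      linarith
    · have e : (B ^ (n + 1))⁻¹ * g * B ^ (n + 1) = B⁻¹ * ((B ^ n)⁻¹ * g * B ^ n) * B := by
        rw [pow_succ]; group
      rw [e]
      have h1 := (h ((B ^ n)⁻¹ * g * B ^ n)).2
      have h2 := (ih g).2
      push_cast
      linarith

theorem conj_zpow {ρ : H → ℝ} {B : H} {t : ℝ}
    (h : ∀ g, ρ (B * g * B⁻¹) ≤ ρ g + t ∧ ρ (B⁻¹ * g * B) ≤ ρ g + t) (κ : ℤ) (g : H) :
    ρ ((B ^ κ)⁻¹ * g * B ^ κ) ≤ ρ g + (κ.natAbs : ℝ) * t := by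
  obtain ⟨n, rfl | rfl⟩ := κ.eq_nat_or_neg
  · rw [zpow_natCast, Int.natAbs_natCast]
    exact (conj_pow h n g).2
  · rw [zpow_neg, inv_inv, zpow_natCast, Int.natAbs_neg, Int.natAbs_natCast]
    exact (conj_pow h n g).1

/-- a sequence of exponents all of whose members on `[lo, hi)` are multiples of `κ` -/
theorem exists_div (c : ℕ → ℤ) (hc : Bd c) (κ : ℤ) (lo len : ℕ)
    (h : ∀ i, i < len → κ ∣ c (lo + i)) :
    ∃ d : ℕ → ℤ, Bd d ∧ Bd (fun i => d i * κ) ∧ ∀ i, i < len → c (lo + i) = d (lo + i) * κ := by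
  classical
  refine ⟨fun x => if lo ≤ x ∧ x < lo + len then c x / κ else 0, ?_, ?_, ?_⟩
  · intro x
    show (if lo ≤ x ∧ x < lo + len then c x / κ else 0).natAbs ≤ x
    split_ifs with hx
    · refine le_trans ?_ (hc x)
      exact Int.natAbs_ediv_le_natAbs _ _
    · simp
  · intro x
    show ((if lo ≤ x ∧ x < lo + len then c x / κ else 0) * κ).natAbs ≤ x
    split_ifs with hx
    · have h1 : κ ∣ c x := by
        have := h (x - lo) (by omega)
        rwa [show lo + (x - lo) = x by omega] at this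
      rw [Int.ediv_mul_cancel h1]
      exact hc x
    · simp
  · intro i hi
    show c (lo + i) = (if lo ≤ lo + i ∧ lo + i < lo + len then c (lo + i) / κ else 0) * κ
    rw [if_pos ⟨by omega, by omega⟩, Int.ediv_mul_cancel (h i hi)]

end LOWP

open LOWP in
theorem low (hE : S_ERR.{u}) : S_LOW.{u} := by
  intro H _ _ _ ρ hρ F κ l q t v hS hl hq ht0 ht z m s hs hz
  have hpn := hρ.pn
  have hnn : ∀ g, 0 ≤ ρ g := by
    intro g
    have h1 := hpn.mul g g⁻¹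
    rw [mul_inv_cancel, hpn.one, hpn.inv] at h1
    linarith
  -- the index `i0`
  obtain ⟨i0, hi0⟩ := exists_nat_one_div_lt (show (0 : ℝ) < s / 2 by linarith)
  have hi0p : (0 : ℝ) < 1 / ((i0 : ℝ) + 1) := by positivity
  obtain ⟨e0, he0, he1, he2⟩ : ∃ e0 : ℝ, 0 < e0 ∧ 4 * e0 ≤ 1 / ((i0 : ℝ) + 1) ∧ 4 * e0 ≤ l m / 3 := by
    have hlm := hl m
    refine ⟨min (1 / ((i0 : ℝ) + 1)) (l m / 3) / 4, ?_, ?_, ?_⟩
    · have : 0 < min (1 / ((i0 : ℝ) + 1)) (l m / 3) := lt_min hi0p (by linarith)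
      linarith
    · have := min_le_left (1 / ((i0 : ℝ) + 1)) (l m / 3)
      linarith
    · have := min_le_right (1 / ((i0 : ℝ) + 1)) (l m / 3)
      linarith
  -- the index `r`
  obtain ⟨r, hr⟩ : ∃ r, ρ (q r * z) < min e0 (s / 2) := by
    have hopen : IsOpen {g : H | ρ (g * z) < min e0 (s / 2)} :=
      isOpen_lt (hρ.cont.comp (continuous_id.mul continuous_const)) continuous_const
    obtain ⟨j, hj⟩ := hq.exists_mem_open hopen ⟨z⁻¹, by
      show ρ (z⁻¹ * z) < min e0 (s / 2)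
      rw [inv_mul_cancel, hpn.one]
      exact lt_min he0 (by linarith)⟩
    exact ⟨j, hj⟩
  have hr1 : ρ (q r * z) < e0 := lt_of_lt_of_le hr (min_le_left _ _)
  have hr2 : ρ (q r * z) < s / 2 := lt_of_lt_of_le hr (min_le_right _ _)
  have hfin : ∀ᶠ b in F, 1 / ((i0 : ℝ) + 1) ≤ ρ (q r * b ^ κ m) := by
    filter_upwards [hz] with b hb
    have e : z⁻¹ * b ^ κ m = (q r * z)⁻¹ * (q r * b ^ κ m) := by group
    rw [e] at hb
    have h1 := hpn.mul (q r * z)⁻¹ (q r * b ^ κ m)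
    rw [hpn.inv] at h1
    linarith
  -- conjugation by `z`
  obtain ⟨δ₁, hδ₁, hδ₂⟩ : ∃ δ : ℝ, 0 < δ ∧ ∀ w, ρ w < δ → ρ (z⁻¹ * w * z) < e0 := by
    have hc : Continuous fun w : H => ρ (z⁻¹ * w * z) :=
      hρ.cont.comp ((continuous_const.mul continuous_id).mul continuous_const)
    have h1 : {w : H | ρ (z⁻¹ * w * z) < e0} ∈ 𝓝 (1 : H) := by
      refine hc.continuousAt.preimage_mem_nhds (Iio_mem_nhds ?_)
      have : ρ (z⁻¹ * 1 * z) = 0 := by rw [mul_one, inv_mul_cancel, hpn.one]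
      rw [this]
      exact he0
    obtain ⟨δ, hδ, h2⟩ := hρ.gen _ h1
    exact ⟨δ, hδ, fun w hw => h2 w hw⟩
  -- the index `K`
  have hκ : (0 : ℝ) ≤ ((κ m).natAbs : ℝ) := Nat.cast_nonneg _
  obtain ⟨K₀, hK₀⟩ : ∃ K₀ : ℕ, (2 + ((κ m).natAbs : ℝ)) * (1 / 4 : ℝ) ^ K₀ < min (δ₁ / 2) e0 := by
    have h1 : (0 : ℝ) < min (δ₁ / 2) e0 / (2 + ((κ m).natAbs : ℝ)) :=
      div_pos (lt_min (by linarith) he0) (by linarith)
    obtain ⟨K₀, h2⟩ := exists_pow_lt_of_lt_one h1 (show (1 / 4 : ℝ) < 1 by norm_num)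
    refine ⟨K₀, ?_⟩
    rw [lt_div_iff₀ (by linarith)] at h2
    linarith
  have hsm : ∀ i, K₀ ≤ i → 2 * (1 / 4 : ℝ) ^ i < δ₁ / 2 ∧
      2 * (1 / 4 : ℝ) ^ (i + 1) + ((κ m).natAbs : ℝ) * t i < e0 := by
    intro i hi
    have h1 : (1 / 4 : ℝ) ^ i ≤ (1 / 4 : ℝ) ^ K₀ :=
      pow_le_pow_of_le_one (by norm_num) (by norm_num) hi
    have h0 : (0 : ℝ) < (1 / 4 : ℝ) ^ i := by positivity
    have h2 : (2 + ((κ m).natAbs : ℝ)) * (1 / 4 : ℝ) ^ i < min (δ₁ / 2) e0 :=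
      lt_of_le_of_lt (mul_le_mul_of_nonneg_left h1 (by linarith)) hK₀
    have h3 := lt_of_lt_of_le h2 (min_le_left _ _)
    have h4 := lt_of_lt_of_le h2 (min_le_right _ _)
    have h5 : t i ≤ (1 / 4 : ℝ) ^ i := by
      have h6 := ht i
      have h7 := ht0 i
      have h8 : (0 : ℝ) ≤ (i : ℝ) := Nat.cast_nonneg _
      nlinarith
    have h6 : ((κ m).natAbs : ℝ) * t i ≤ ((κ m).natAbs : ℝ) * (1 / 4 : ℝ) ^ i :=
      mul_le_mul_of_nonneg_left h5 hκ
    have h7 : 0 ≤ ((κ m).natAbs : ℝ) * (1 / 4 : ℝ) ^ i := mul_nonneg hκ h0.le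
    constructor
    · nlinarith
    · rw [pow_succ]
      nlinarith
  refine ⟨K₀ + m + r + i0 + 1, δ₁ / 2, by linarith, ?_⟩
  intro k hk g j c hc hg hgz
  by_cases hall : ∀ i, i < j → κ m ∣ c (k + i)
  · -- all exponents are multiples
    obtain ⟨d, hd1, hd2, hd3⟩ := exists_div c hc (κ m) k j hall
    have herr := hE H ρ hpn F κ l q t v hS ht0 ht m k j d (by omega) hd1 hd2
    have hcg : tp v k j c = tp v k j (fun i => d i * κ m) := tp_congr v k j _ _ hd3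
    rw [← hcg] at herr
    have hE1 := (hsm k (by omega)).1
    have hf := hS.fin (k - 1) r m i0 (by omega) (by omega) (by omega) hfin j d hd1
    rw [show k - 1 + 1 = k by omega] at hf
    have e : q r * tp v k j d ^ κ m =
        (q r * z) * (z⁻¹ * ((tp v k j d ^ κ m * (tp v k j c)⁻¹) * g⁻¹) * z) := by
      rw [← hgz]; group
    rw [e] at hf
    have h1 := hpn.mul (q r * z) (z⁻¹ * ((tp v k j d ^ κ m * (tp v k j c)⁻¹) * g⁻¹) * z)
    have h2 := hpn.mul (tp v k j d ^ κ m * (tp v k j c)⁻¹) g⁻¹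
    rw [hpn.inv] at h2
    have h3 := hδ₂ ((tp v k j d ^ κ m * (tp v k j c)⁻¹) * g⁻¹) (by linarith)
    linarith
  · -- the last exponent which is not a multiple
    classical
    push Not at hall
    obtain ⟨x, hxj, hx, hxl⟩ : ∃ x, x < j ∧ ¬ κ m ∣ c (k + x) ∧
        ∀ y, x < y → y < j → κ m ∣ c (k + y) := by
      set S : Finset ℕ := (Finset.range j).filter (fun x => ¬ κ m ∣ c (k + x)) with hSd
      obtain ⟨y, hy1, hy2⟩ := hall
      have hne : S.Nonempty := ⟨y, by simp [hSd, hy1, hy2]⟩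
      have hmx : S.max' hne < j ∧ ¬ κ m ∣ c (k + S.max' hne) := by
        have h0 : ∀ w ∈ S, w < j ∧ ¬ κ m ∣ c (k + w) := by
          intro w hw
          rw [hSd, Finset.mem_filter, Finset.mem_range] at hw
          exact hw
        exact h0 _ (S.max'_mem hne)
      refine ⟨S.max' hne, hmx.1, hmx.2, fun y' h1 h2 => ?_⟩
      by_contra h3
      have h4 : y' ∈ S := by simp [hSd, h2, h3]
      have h5 := S.le_max' y' h4
      omega
    set n := k + x with hn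
    set j' := j - x - 1 with hj'
    obtain ⟨d, hd1, hd2, hd3⟩ := exists_div c hc (κ m) (n + 1) j' (by
      intro i hi
      have := hxl (x + 1 + i) (by omega) (by omega)
      rwa [show k + (x + 1 + i) = n + 1 + i by omega] at this)
    have herr := hE H ρ hpn F κ l q t v hS ht0 ht m (n + 1) j' d (by omega) hd1 hd2
    have hcg : tp v (n + 1) j' c = tp v (n + 1) j' (fun i => d i * κ m) :=
      tp_congr v (n + 1) j' _ _ hd3
    rw [← hcg] at herr
    have hE2 := (hsm n (by omega)).2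
    have hsplit : tp v k j c = tp v k x c * v n ^ c n * tp v (n + 1) j' c := by
      have e1 : j = (x + 1) + j' := by omega
      rw [e1, tp_add, tp_succ]
      rfl
    have hmem : tp v k x c ∈ pp v n := tp_mem_pp v k x c hc
    have hv := (hS.vis n m (c n) j' d (by omega) (hc n) hx hd1 _ hmem).2 r (by omega)
    have htin := fun g' => hS.tin n j' d hd1 g'
    set B := tp v (n + 1) j' d with hB
    set B' := tp v (n + 1) j' c with hB'
    set a := tp v k x c with ha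
    have hconj := conj_zpow (ρ := ρ) (B := B) (t := t n) htin (κ m) (B ^ κ m * B'⁻¹)
    have e : q r * a * v n ^ c n * B ^ κ m =
        (q r * z) * ((z⁻¹ * g⁻¹ * z) * ((B ^ κ m)⁻¹ * (B ^ κ m * B'⁻¹) * B ^ κ m)) := by
      rw [← hgz, hsplit]; group
    rw [e] at hv
    have h1 := hpn.mul (q r * z) ((z⁻¹ * g⁻¹ * z) * ((B ^ κ m)⁻¹ * (B ^ κ m * B'⁻¹) * B ^ κ m))
    have h2 := hpn.mul (z⁻¹ * g⁻¹ * z) ((B ^ κ m)⁻¹ * (B ^ κ m * B'⁻¹) * B ^ κ m)
    have h3 := hδ₂ g⁻¹ (by rw [hpn.inv]; linarith)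
    have h4 : 2 * (1 / 4 : ℝ) ^ (n + 1) + ((κ m).natAbs : ℝ) * t n < e0 := hE2
    linarith

end Pool.Agent.H19M
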